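import Mathlib

set_option autoImplicit false

/-!
# Permuted expansions and Schauder bases (MP_514f39_an)

In the separable Hilbert space (real or complex) there is a minimal sequence with property (U) (every
vector has an expansion which converges after a suitable rearrangement, with unique coefficients) such
that no permutation of the sequence is a Schauder basis.

The example: on blocks `B n` of `2 ^ n` indices take the norm `(∑ |a_m|² + |∑ a_m|²)^{1/2}` and form the
Hilbertian sum. For each vector, a greedy rearrangement inside each block keeps the partial sums bounded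
by a multiple of the norm. But for every fixed ordering of a block the vector with `2^(n-1)` coordinates
`1` followed by `2^(n-1)` coordinates `-1` has norm `2^(n/2)` and a partial sum of norm `≥ 2^(n-1)`.
-/

open Filter Topology

universe u

namespace Pool.Agent.Results.MP_514f39_an.NoPermutationBasis

section Defs

variable (𝕜 : Type*) [RCLike 𝕜] {E : Type*} [NormedAddCommGroup E] [NormedSpace 𝕜 E]

/-- `x` is a Schauder basis: every vector has exactly one expansion `∑ α i • x i` (norm convergence of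
the partial sums). -/
def IsSchauderBasis (x : ℕ → E) : Prop :=
  ∀ v : E, ∃! α : ℕ → 𝕜, Tendsto (fun N => ∑ i ∈ Finset.range N, α i • x i) atTop (𝓝 v)

/-- `v` is the sum of `∑ α n • x n` for some order of the terms: for some bijection `σ` of `ℕ`, the
series `∑ α (σ i) • x (σ i)` converges in norm to `v`. -/
def ExpandsAs (x : ℕ → E) (α : ℕ → 𝕜) (v : E) : Prop :=
  ∃ σ : Equiv.Perm ℕ,
    Tendsto (fun N => ∑ i ∈ Finset.range N, α (σ i) • x (σ i)) atTop (𝓝 v)

/-- Property (U): every vector is the sum of a series `∑ α n • x n` in some order, and the scalar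
sequence `α` is unique (the order need not be). -/
def PropertyU (x : ℕ → E) : Prop :=
  ∀ v : E, ∃! α : ℕ → 𝕜, ExpandsAs 𝕜 x α v

/-- Minimal sequence: no `x m` lies in the closed linear span of the other terms. -/
def IsMinimalSeq (x : ℕ → E) : Prop :=
  ∀ m : ℕ, x m ∉ closure (Submodule.span 𝕜 (x '' {n | n ≠ m}) : Set E)

end Defs

/-! ### Blocks -/

/-- first index of the `n`-th block -/
def b (n : ℕ) : ℕ := 2 ^ n - 1

/-- number of the block of `m` -/
def L (m : ℕ) : ℕ := Nat.log 2 (m + 1)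

/-- the `n`-th block -/
def B (n : ℕ) : Finset ℕ := Finset.Ico (b n) (b (n + 1))

lemma b_add (n : ℕ) : b (n + 1) = b n + 2 ^ n := by
  unfold b
  have : 1 ≤ 2 ^ n := Nat.one_le_two_pow
  rw [pow_succ]; omega

lemma b_mono : StrictMono b := by
  apply strictMono_nat_of_lt_succ
  intro n
  rw [b_add]
  have : 0 < 2 ^ n := by positivity
  omega

lemma mem_B (n m : ℕ) : m ∈ B n ↔ L m = n := by
  unfold B L b
  rw [Finset.mem_Ico, Nat.log_eq_iff (Or.inr ⟨by norm_num, by omega⟩)]
  have : 1 ≤ 2 ^ n := Nat.one_le_two_pow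
  have : 1 ≤ 2 ^ (n + 1) := Nat.one_le_two_pow
  omega

lemma card_B (n : ℕ) : (B n).card = 2 ^ n := by
  unfold B
  rw [Nat.card_Ico, b_add, Nat.add_sub_cancel_left]

lemma b_L_le (m : ℕ) : b (L m) ≤ m := (Finset.mem_Ico.1 ((mem_B (L m) m).2 rfl)).1

lemma lt_b_L (m : ℕ) : m < b (L m + 1) := (Finset.mem_Ico.1 ((mem_B (L m) m).2 rfl)).2

lemma L_tendsto : Tendsto L atTop atTop := by
  apply tendsto_atTop.2
  intro n
  filter_upwards [eventually_ge_atTop (b n)] with m hm
  by_contra h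
  push Not at h
  have h1 := lt_b_L m
  have h2 : b (L m + 1) ≤ b n := b_mono.monotone h
  omega

/-! ### Greedy rearrangement -/

section Greedy

variable {𝕜 : Type*} [RCLike 𝕜]

/-- Greedy rearrangement of a finite family with sum zero in an inner product space. -/
lemma greedy (z : ℕ → 𝕜) : ∀ (c : ℕ) (T : Finset ℕ) (S : 𝕜), T.card = c → S + ∑ i ∈ T, z i = 0 →
    ∃ g : ℕ → ℕ, Set.BijOn g (Set.Iio c) (T : Set ℕ) ∧
      ∀ k, k ≤ c → ‖S + ∑ i ∈ Finset.range k, z (g i)‖ ^ 2 ≤
        ‖S‖ ^ 2 + ∑ i ∈ Finset.range k, ‖z (g i)‖ ^ 2 := by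
  intro c
  induction c with
  | zero =>
    intro T S hT hS
    refine ⟨id, ?_, ?_⟩
    · rw [Finset.card_eq_zero] at hT
      subst hT
      simp [Set.BijOn, Set.MapsTo, Set.InjOn, Set.SurjOn]
    · intro k hk
      have : k = 0 := by omega
      subst this; simp
  | succ c ih =>
    intro T S hT hS
    have hne : T.Nonempty := by
      rw [← Finset.card_pos]; omega
    obtain ⟨i0, hi0, hle⟩ : ∃ i ∈ T, RCLike.re (inner 𝕜 S (z i)) ≤ 0 := by
      by_contra hcon
      push Not at hcon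
      have h1 : 0 < ∑ i ∈ T, RCLike.re (inner 𝕜 S (z i)) := Finset.sum_pos hcon hne
      have h2 : ∑ i ∈ T, RCLike.re (inner 𝕜 S (z i)) = RCLike.re (inner 𝕜 S (∑ i ∈ T, z i)) := by
        rw [inner_sum, map_sum]
      have h3 : ∑ i ∈ T, z i = -S := by
        rw [← add_eq_zero_iff_eq_neg, add_comm]; exact hS
      rw [h2, h3, inner_neg_right, map_neg, inner_self_eq_norm_sq] at h1
      nlinarith [norm_nonneg S]
    have hcard : (T.erase i0).card = c := by
      rw [Finset.card_erase_of_mem hi0, hT]; rfl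
    have hsum : (S + z i0) + ∑ i ∈ T.erase i0, z i = 0 := by
      rw [add_assoc, Finset.add_sum_erase T z hi0]; exact hS
    obtain ⟨g, hg, hgk⟩ := ih (T.erase i0) (S + z i0) hcard hsum
    refine ⟨fun j => Nat.casesOn j i0 g, ?_, ?_⟩
    · refine ⟨?_, ?_, ?_⟩
      · intro j hj
        cases j with
        | zero => exact hi0
        | succ j =>
          have : j ∈ Set.Iio c := by
            simp only [Set.mem_Iio] at hj ⊢; omega
          exact Finset.mem_of_mem_erase (hg.mapsTo this)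
      · intro j hj k hk hjk
        cases j with
        | zero =>
          cases k with
          | zero => rfl
          | succ k =>
            have hk' : k ∈ Set.Iio c := by
              simp only [Set.mem_Iio] at hk ⊢; omega
            have := hg.mapsTo hk'
            simp only at hjk
            rw [← hjk] at this
            simp at this
        | succ j =>
          have hj' : j ∈ Set.Iio c := by
            simp only [Set.mem_Iio] at hj ⊢; omega
          cases k with
          | zero =>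
            have := hg.mapsTo hj'
            simp only at hjk
            rw [hjk] at this
            simp at this
          | succ k =>
            have hk' : k ∈ Set.Iio c := by
              simp only [Set.mem_Iio] at hk ⊢; omega
            rw [hg.injOn hj' hk' hjk]
      · intro m hm
        by_cases h : m = i0
        · exact ⟨0, by simp, h.symm⟩
        · have : m ∈ ((T.erase i0 : Finset ℕ) : Set ℕ) := by
            exact Finset.mem_coe.2 (Finset.mem_erase.2 ⟨h, hm⟩)
          obtain ⟨j, hj, hjm⟩ := hg.surjOn this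
          refine ⟨j + 1, ?_, hjm⟩
          simp only [Set.mem_Iio] at hj ⊢; omega
    · intro k hk
      cases k with
      | zero => simp
      | succ k =>
        have h1 := hgk k (by omega)
        rw [Finset.sum_range_succ', Finset.sum_range_succ']
        change ‖S + (∑ j ∈ Finset.range k, z (g j) + z i0)‖ ^ 2 ≤
          ‖S‖ ^ 2 + (∑ j ∈ Finset.range k, ‖z (g j)‖ ^ 2 + ‖z i0‖ ^ 2)
        have h2 : ‖S + z i0‖ ^ 2 ≤ ‖S‖ ^ 2 + ‖z i0‖ ^ 2 := by
          have := norm_add_sq (𝕜 := 𝕜) S (z i0)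
          rw [this]; linarith
        have h3 : S + (∑ j ∈ Finset.range k, z (g j) + z i0) =
            S + z i0 + ∑ j ∈ Finset.range k, z (g j) := by ring
        rw [h3]
        linarith

/-- Greedy rearrangement of a finite family with arbitrary sum. -/
lemma greedy' (z : ℕ → 𝕜) (T : Finset ℕ) (hT : 0 < T.card) :
    ∃ g : ℕ → ℕ, Set.BijOn g (Set.Iio T.card) (T : Set ℕ) ∧
      ∀ k, k ≤ T.card → ‖∑ i ∈ Finset.range k, z (g i)‖ ≤
        Real.sqrt (2 * ∑ i ∈ T, ‖z i‖ ^ 2 + 2 * ‖∑ i ∈ T, z i‖ ^ 2) + ‖∑ i ∈ T, z i‖ := by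
  set s : 𝕜 := ∑ i ∈ T, z i with hs
  have hc0 : (T.card : 𝕜) ≠ 0 := by exact_mod_cast hT.ne'
  have hcR : (0 : ℝ) < T.card := by exact_mod_cast hT
  have h0 : (0 : 𝕜) + ∑ i ∈ T, (z i - s / T.card) = 0 := by
    rw [zero_add, Finset.sum_sub_distrib, ← hs, Finset.sum_const, nsmul_eq_mul,
      mul_div_cancel₀ _ hc0, sub_self]
  obtain ⟨g, hg, hk⟩ := greedy (fun i => z i - s / T.card) T.card T 0 rfl h0
  refine ⟨g, hg, ?_⟩
  intro k hkc
  have h1 := hk k hkc
  simp only [zero_add, norm_zero, ne_eq, OfNat.ofNat_ne_zero, not_false_eq_true, zero_pow] at h1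
  have hnorm : ‖s / (T.card : 𝕜)‖ = ‖s‖ / T.card := by
    rw [norm_div, RCLike.norm_natCast]
  -- the sum of squares
  have himg : ∑ i ∈ Finset.range k, ‖z (g i) - s / T.card‖ ^ 2 ≤
      ∑ i ∈ T, ‖z i - s / T.card‖ ^ 2 := by
    rw [← Finset.sum_image (f := fun m => ‖z m - s / T.card‖ ^ 2) (g := g) (s := Finset.range k)]
    · apply Finset.sum_le_sum_of_subset_of_nonneg
      · intro m hm
        rw [Finset.mem_image] at hm
        obtain ⟨j, hj, rfl⟩ := hm
        rw [Finset.mem_range] at hj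
        exact hg.mapsTo (Set.mem_Iio.2 (by omega))
      · intro i _ _
        positivity
    · intro i hi j hj hij
      have hi' := Finset.mem_range.1 (Finset.mem_coe.1 hi)
      have hj' := Finset.mem_range.1 (Finset.mem_coe.1 hj)
      exact hg.injOn (Set.mem_Iio.2 (by omega)) (Set.mem_Iio.2 (by omega)) hij
  have hsq : ∑ i ∈ T, ‖z i - s / T.card‖ ^ 2 ≤ 2 * ∑ i ∈ T, ‖z i‖ ^ 2 + 2 * ‖s‖ ^ 2 := by
    have : ∀ i ∈ T, ‖z i - s / T.card‖ ^ 2 ≤ 2 * ‖z i‖ ^ 2 + 2 * (‖s‖ / T.card) ^ 2 := by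
      intro i _
      have h := norm_sub_le (z i) (s / T.card)
      rw [hnorm] at h
      nlinarith [norm_nonneg (z i - s / T.card), sq_nonneg (‖z i‖ - ‖s‖ / T.card)]
    refine (Finset.sum_le_sum this).trans ?_
    rw [Finset.sum_add_distrib, ← Finset.mul_sum, Finset.sum_const, nsmul_eq_mul]
    have h2 : (T.card : ℝ) * (2 * (‖s‖ / T.card) ^ 2) = 2 * ‖s‖ ^ 2 / T.card := by
      field_simp
    rw [h2]
    have h3 : 2 * ‖s‖ ^ 2 / T.card ≤ 2 * ‖s‖ ^ 2 := by
      apply div_le_self (by positivity)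
      exact_mod_cast hT
    linarith
  have h4 : ‖∑ i ∈ Finset.range k, (z (g i) - s / T.card)‖ ≤
      Real.sqrt (2 * ∑ i ∈ T, ‖z i‖ ^ 2 + 2 * ‖s‖ ^ 2) := by
    apply Real.le_sqrt_of_sq_le
    linarith
  have h5 : ∑ i ∈ Finset.range k, z (g i) =
      ∑ i ∈ Finset.range k, (z (g i) - s / T.card) + k * (s / T.card) := by
    rw [Finset.sum_sub_distrib, Finset.sum_const, Finset.card_range, nsmul_eq_mul]; ring
  rw [h5]
  refine (norm_add_le _ _).trans (add_le_add h4 ?_)
  rw [norm_mul, hnorm, RCLike.norm_natCast, mul_div_assoc', div_le_iff₀ hcR]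
  have : (k : ℝ) ≤ T.card := by exact_mod_cast hkc
  nlinarith [norm_nonneg s]

end Greedy

/-! ### The space -/

section Space

variable (𝕜 : Type u) [RCLike 𝕜]

/-- `ℓ₂` -/
abbrev L2 : Type u := lp (fun _ : ℕ => 𝕜) 2

/-- The Hilbertian sum of two copies of `ℓ₂`. -/
abbrev Amb : Type u := WithLp 2 (L2 𝕜 × L2 𝕜)

/-- The Hilbert space of the pairs `(a, s)` with `s_n = ∑_{m ∈ B n} a_m`. -/
def Sub : Submodule 𝕜 (Amb 𝕜) where
  carrier := {p | ∀ n : ℕ, (p.snd : ℕ → 𝕜) n = ∑ m ∈ B n, (p.fst : ℕ → 𝕜) m}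
  add_mem' := by
    intro a b ha hb i
    have h1 := ha i
    have h2 := hb i
    simp only [WithLp.add_fst, WithLp.add_snd, lp.coeFn_add, Pi.add_apply]
    rw [h1, h2, Finset.sum_add_distrib]
  zero_mem' := by
    intro i
    simp
  smul_mem' := by
    intro c a ha i
    have h1 := ha i
    simp only [WithLp.smul_fst, WithLp.smul_snd, lp.coeFn_smul, Pi.smul_apply, smul_eq_mul]
    rw [h1, Finset.mul_sum]

lemma coord_continuous (i : ℕ) :
    Continuous (fun x : L2 𝕜 => (x : ℕ → 𝕜) i) := by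
  have : LipschitzWith 1 (fun x : L2 𝕜 => (x : ℕ → 𝕜) i) := by
    apply LipschitzWith.of_dist_le_mul
    intro x y
    rw [dist_eq_norm, dist_eq_norm, NNReal.coe_one, one_mul]
    have := lp.norm_apply_le_norm (p := 2) (by norm_num) (x - y) i
    simpa using this
  exact this.continuous

lemma isClosed_Sub : IsClosed (Sub 𝕜 : Set (Amb 𝕜)) := by
  have : (Sub 𝕜 : Set (Amb 𝕜)) =
      ⋂ n : ℕ, {p : Amb 𝕜 | (p.snd : ℕ → 𝕜) n = ∑ m ∈ B n, (p.fst : ℕ → 𝕜) m} := by
    ext p
    simp [Sub]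
  rw [this]
  apply isClosed_iInter
  intro i
  apply isClosed_eq
  · exact (coord_continuous 𝕜 i).comp (WithLp.continuous_snd _ _ _)
  · apply continuous_finsetSum
    intro m _
    exact (coord_continuous 𝕜 m).comp (WithLp.continuous_fst _ _ _)

instance : CompleteSpace (Sub 𝕜) := (isClosed_Sub 𝕜).completeSpace_coe

variable {𝕜}

/-- the coordinates -/
abbrev a1 (p : Sub 𝕜) : L2 𝕜 := (p : Amb 𝕜).fst
/-- the block sums -/
abbrev a2 (p : Sub 𝕜) : L2 𝕜 := (p : Amb 𝕜).snd

lemma norm_sq (p : Sub 𝕜) : ‖p‖ ^ 2 = ‖a1 p‖ ^ 2 + ‖a2 p‖ ^ 2 := by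
  rw [Submodule.coe_norm, WithLp.prod_norm_sq_eq_of_L2]

lemma norm_le_add (p : Sub 𝕜) : ‖p‖ ≤ ‖a1 p‖ + ‖a2 p‖ := by
  have := norm_sq p
  nlinarith [norm_nonneg p, norm_nonneg (a1 p), norm_nonneg (a2 p)]

lemma a2_coord (p : Sub 𝕜) (n : ℕ) : (a2 p : ℕ → 𝕜) n = ∑ m ∈ B n, (a1 p : ℕ → 𝕜) m := p.2 n

/-- the coordinate functionals -/
def co (m : ℕ) : Sub 𝕜 →L[𝕜] 𝕜 where
  toFun p := (a1 p : ℕ → 𝕜) m
  map_add' _ _ := rfl
  map_smul' _ _ := rfl
  cont := (coord_continuous 𝕜 m).comp
    ((WithLp.continuous_fst _ _ _).comp continuous_subtype_val)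

lemma co_apply (m : ℕ) (p : Sub 𝕜) : co m p = (a1 p : ℕ → 𝕜) m := rfl

/-- the sequence -/
noncomputable def X (m : ℕ) : Sub 𝕜 :=
  ⟨WithLp.toLp 2 (lp.single 2 m (1:𝕜), lp.single 2 (L m) (1:𝕜)), by
    intro n
    change (lp.single (E := fun _ : ℕ => 𝕜) 2 (L m) (1:𝕜) : ℕ → 𝕜) n =
      ∑ i ∈ B n, (lp.single (E := fun _ : ℕ => 𝕜) 2 m (1:𝕜) : ℕ → 𝕜) i
    simp only [lp.single_apply, Pi.single_apply]
    rw [Finset.sum_ite_eq']
    simp only [mem_B]
    by_cases h : n = L m
    · simp [h]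
    · simp [h, Ne.symm h]⟩

lemma a1_X (m : ℕ) : a1 (X m : Sub 𝕜) = lp.single 2 m (1:𝕜) := rfl
lemma a2_X (m : ℕ) : a2 (X m : Sub 𝕜) = lp.single 2 (L m) (1:𝕜) := rfl

lemma co_X (m i : ℕ) : co m (X i : Sub 𝕜) = if m = i then 1 else 0 := by
  rw [co_apply, a1_X, lp.single_apply, Pi.single_apply]

/-- first component as a linear map -/
def A1 : Sub 𝕜 →ₗ[𝕜] L2 𝕜 where
  toFun p := a1 p
  map_add' _ _ := rfl
  map_smul' _ _ := rfl

/-- second component as a linear map -/
def A2 : Sub 𝕜 →ₗ[𝕜] L2 𝕜 where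
  toFun p := a2 p
  map_add' _ _ := rfl
  map_smul' _ _ := rfl

lemma a1_sum (A : Finset ℕ) (c : ℕ → 𝕜) :
    a1 (∑ m ∈ A, c m • X m : Sub 𝕜) = ∑ m ∈ A, lp.single 2 m (c m) := by
  change A1 _ = _
  rw [map_sum]
  apply Finset.sum_congr rfl
  intro m _
  rw [map_smul]
  change c m • a1 (X m) = _
  rw [a1_X, ← lp.single_smul, smul_eq_mul, mul_one]

lemma a2_sum (A : Finset ℕ) (c : ℕ → 𝕜) :
    a2 (∑ m ∈ A, c m • X m : Sub 𝕜) = ∑ m ∈ A, lp.single 2 (L m) (c m) := by
  change A2 _ = _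
  rw [map_sum]
  apply Finset.sum_congr rfl
  intro m _
  rw [map_smul]
  change c m • a2 (X m) = _
  rw [a2_X, ← lp.single_smul, smul_eq_mul, mul_one]

lemma norm_single_sum (A : Finset ℕ) (c : ℕ → 𝕜) :
    ‖∑ m ∈ A, (lp.single 2 m (c m) : L2 𝕜)‖ ^ 2 = ∑ m ∈ A, ‖c m‖ ^ 2 := by
  have := lp.norm_sum_single (p := 2) (by norm_num) c A
  simpa using this

/-- The norm of a linear combination of vectors of one block. -/
lemma norm_block (n : ℕ) (A : Finset ℕ) (hA : A ⊆ B n) (c : ℕ → 𝕜) :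
    ‖(∑ m ∈ A, c m • X m : Sub 𝕜)‖ ^ 2 = ∑ m ∈ A, ‖c m‖ ^ 2 + ‖∑ m ∈ A, c m‖ ^ 2 := by
  rw [norm_sq, a1_sum, norm_single_sum, a2_sum]
  have : ∑ m ∈ A, (lp.single 2 (L m) (c m) : L2 𝕜) = lp.single 2 n (∑ m ∈ A, c m) := by
    rw [← lp.singleAddMonoidHom_apply, map_sum]
    apply Finset.sum_congr rfl
    intro m hm
    rw [lp.singleAddMonoidHom_apply, (mem_B n m).1 (hA hm)]
  rw [this, lp.norm_single (by norm_num)]

/-- The partial sums over complete blocks converge. -/
lemma tendsto_blocks (v : Sub 𝕜) :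
    Tendsto (fun n => ∑ m ∈ Finset.range (b n), (a1 v : ℕ → 𝕜) m • X m) atTop (𝓝 v) := by
  have h1 : Tendsto (fun n => ∑ m ∈ Finset.range (b n), lp.single 2 m ((a1 v : ℕ → 𝕜) m))
      atTop (𝓝 (a1 v)) :=
    (lp.hasSum_single (by norm_num) (a1 v)).tendsto_sum_nat.comp b_mono.tendsto_atTop
  have h2 : Tendsto (fun n => ∑ k ∈ Finset.range n, lp.single 2 k ((a2 v : ℕ → 𝕜) k))
      atTop (𝓝 (a2 v)) :=
    (lp.hasSum_single (by norm_num) (a2 v)).tendsto_sum_nat
  have h3 : ∀ n, ∑ m ∈ Finset.range (b n), lp.single 2 (L m) ((a1 v : ℕ → 𝕜) m) =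
      ∑ k ∈ Finset.range n, (lp.single 2 k ((a2 v : ℕ → 𝕜) k) : L2 𝕜) := by
    intro n
    induction n with
    | zero => simp [b]
    | succ n ih =>
      rw [Finset.sum_range_succ, ← ih, a2_coord, ← lp.singleAddMonoidHom_apply, map_sum]
      have : Finset.range (b (n + 1)) = Finset.range (b n) ∪ B n := by
        unfold B
        rw [Finset.range_eq_Ico, Finset.range_eq_Ico,
          Finset.Ico_union_Ico_eq_Ico (Nat.zero_le _) (b_mono.monotone (Nat.le_succ n))]
      rw [this, Finset.sum_union]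
      · congr 1
        apply Finset.sum_congr rfl
        intro m hm
        rw [lp.singleAddMonoidHom_apply, (mem_B n m).1 hm]
      · unfold B
        rw [Finset.range_eq_Ico]
        exact Finset.Ico_disjoint_Ico_consecutive _ _ _
  rw [tendsto_iff_norm_sub_tendsto_zero]
  have h4 : Tendsto (fun n =>
      ‖∑ m ∈ Finset.range (b n), lp.single 2 m ((a1 v : ℕ → 𝕜) m) - a1 v‖ +
      ‖∑ k ∈ Finset.range n, lp.single 2 k ((a2 v : ℕ → 𝕜) k) - a2 v‖) atTop (𝓝 0) := by
    have e1 := tendsto_iff_norm_sub_tendsto_zero.1 h1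
    have e2 := tendsto_iff_norm_sub_tendsto_zero.1 h2
    simpa using e1.add e2
  refine squeeze_zero (fun n => norm_nonneg _) (fun n => ?_) h4
  refine (norm_le_add _).trans (le_of_eq ?_)
  have e1 : a1 (∑ m ∈ Finset.range (b n), (a1 v : ℕ → 𝕜) m • X m - v) =
      a1 (∑ m ∈ Finset.range (b n), (a1 v : ℕ → 𝕜) m • X m) - a1 v := rfl
  have e2 : a2 (∑ m ∈ Finset.range (b n), (a1 v : ℕ → 𝕜) m • X m - v) =
      a2 (∑ m ∈ Finset.range (b n), (a1 v : ℕ → 𝕜) m • X m) - a2 v := rfl
  rw [e1, e2, a1_sum, a2_sum, h3]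

/-! ### Rearrangement of the expansion of a given vector -/

/-- the rearrangement given by a family of enumerations of the blocks -/
def rearr (g : ℕ → ℕ → ℕ) (m : ℕ) : ℕ := g (L m) (m - b (L m))

lemma rearr_add (g : ℕ → ℕ → ℕ) (n j : ℕ) (hj : j < 2 ^ n) : rearr g (b n + j) = g n j := by
  have h : L (b n + j) = n := by
    rw [← mem_B]
    unfold B
    rw [Finset.mem_Ico, b_add]
    omega
  unfold rearr
  rw [h, Nat.add_sub_cancel_left]

lemma rearr_bij (g : ℕ → ℕ → ℕ)
    (hg : ∀ n, Set.BijOn (g n) (Set.Iio (B n).card) (B n : Set ℕ)) :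
    Function.Bijective (rearr g) := by
  have hlt : ∀ m, m - b (L m) < 2 ^ (L m) := by
    intro m
    have h1 := b_L_le m
    have h2 := lt_b_L m
    rw [b_add] at h2
    omega
  have hL : ∀ m, L (rearr g m) = L m := by
    intro m
    rw [← mem_B]
    refine (hg (L m)).mapsTo ?_
    rw [Set.mem_Iio, card_B]
    exact hlt m
  constructor
  · intro m1 m2 h
    have h1 : L m1 = L m2 := by rw [← hL m1, ← hL m2, h]
    unfold rearr at h
    rw [← h1] at h
    have hm1 : m1 - b (L m1) ∈ Set.Iio (B (L m1)).card := by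
      rw [Set.mem_Iio, card_B]; exact hlt m1
    have hm2 : m2 - b (L m1) ∈ Set.Iio (B (L m1)).card := by
      rw [Set.mem_Iio, card_B, h1]; exact hlt m2
    have h3 := (hg (L m1)).injOn hm1 hm2 h
    have h4 := b_L_le m1
    have h5 := b_L_le m2
    rw [← h1] at h5
    omega
  · intro y
    obtain ⟨j, hj, hjy⟩ := (hg (L y)).surjOn (Finset.mem_coe.2 ((mem_B (L y) y).2 rfl))
    rw [Set.mem_Iio, card_B] at hj
    exact ⟨b (L y) + j, by rw [rearr_add g _ _ hj, hjy]⟩

lemma sum_rearr {V : Type*} [AddCommMonoid V] (g : ℕ → ℕ → ℕ)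
    (hg : ∀ n, Set.BijOn (g n) (Set.Iio (B n).card) (B n : Set ℕ)) (F : ℕ → V) (n : ℕ) :
    ∀ k, k ≤ 2 ^ n → ∑ i ∈ Finset.range (b n + k), F (rearr g i) =
      ∑ i ∈ Finset.range (b n), F i + ∑ j ∈ Finset.range k, F (g n j) := by
  induction n with
  | zero =>
    intro k hk
    rw [Finset.sum_range_add]
    congr 1
    apply Finset.sum_congr rfl
    intro j hj
    rw [rearr_add g 0 j (by have := Finset.mem_range.1 hj; omega)]
  | succ n ih =>
    intro k hk
    rw [Finset.sum_range_add]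
    congr 1
    · rw [b_add, ih _ le_rfl, Finset.sum_range_add]
      congr 1
      have h1 : ∑ j ∈ Finset.range (2 ^ n), F (g n j) = ∑ m ∈ B n, F m := by
        apply Finset.sum_bij (fun j _ => g n j)
        · intro j hj
          exact (hg n).mapsTo (by rw [Set.mem_Iio, card_B]; exact Finset.mem_range.1 hj)
        · intro i hi j hj hij
          exact (hg n).injOn (by rw [Set.mem_Iio, card_B]; exact Finset.mem_range.1 hi)
            (by rw [Set.mem_Iio, card_B]; exact Finset.mem_range.1 hj) hij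
        · intro m hm
          obtain ⟨j, hj, hjm⟩ := (hg n).surjOn (Finset.mem_coe.2 hm)
          rw [Set.mem_Iio, card_B] at hj
          exact ⟨j, Finset.mem_range.2 hj, hjm⟩
        · intro j _; rfl
      rw [h1]
      unfold B
      rw [Finset.sum_Ico_eq_sum_range, b_add, Nat.add_sub_cancel_left]
    · apply Finset.sum_congr rfl
      intro j hj
      rw [rearr_add g (n + 1) j (by have := Finset.mem_range.1 hj; omega)]

lemma exists_expansion (v : Sub 𝕜) : ExpandsAs 𝕜 (X : ℕ → Sub 𝕜) (fun m => (a1 v : ℕ → 𝕜) m) v := by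
  set a : ℕ → 𝕜 := (a1 v : ℕ → 𝕜) with ha
  have hpos : ∀ n, 0 < (B n).card := by intro n; rw [card_B]; positivity
  choose g hg hgk using fun n => greedy' a (B n) (hpos n)
  refine ⟨Equiv.ofBijective (rearr g) (rearr_bij g hg), ?_⟩
  change Tendsto (fun N => ∑ i ∈ Finset.range N, a (rearr g i) • (X (rearr g i) : Sub 𝕜)) atTop (𝓝 v)
  set T : ℕ → ℝ := fun n => ∑ m ∈ B n, ‖a m‖ ^ 2 with hT
  set s : ℕ → ℝ := fun n => ‖∑ m ∈ B n, a m‖ with hs
  set R : ℕ → ℝ := fun n => T n + (Real.sqrt (2 * T n + 2 * s n ^ 2) + s n) ^ 2 with hR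
  -- the error terms tend to zero
  have hT0 : Tendsto T atTop (𝓝 0) := by
    have h1 : Summable (fun m => ‖a m‖ ^ 2) := by
      have := (lp.memℓp (a1 v)).summable (by norm_num)
      simpa using this
    have h2 := h1.hasSum.tendsto_sum_nat
    have h3 := (h2.comp (b_mono.tendsto_atTop.comp (tendsto_add_atTop_nat 1))).sub
      (h2.comp b_mono.tendsto_atTop)
    rw [sub_self] at h3
    refine h3.congr ?_
    intro n
    simp only [Function.comp]
    change _ = ∑ m ∈ Finset.Ico (b n) (b (n + 1)), ‖a m‖ ^ 2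
    rw [Finset.sum_Ico_eq_sub _ (b_mono.monotone (Nat.le_succ n))]
  have hs0 : Tendsto s atTop (𝓝 0) := by
    have h1 : Summable (fun n => ‖(a2 v : ℕ → 𝕜) n‖ ^ 2) := by
      have := (lp.memℓp (a2 v)).summable (by norm_num)
      simpa using this
    have h2 := h1.tendsto_atTop_zero
    have h3 : Tendsto (fun n => Real.sqrt (‖(a2 v : ℕ → 𝕜) n‖ ^ 2)) atTop (𝓝 0) := by
      have := (Real.continuous_sqrt.tendsto 0).comp h2
      simpa [Function.comp_def] using this
    refine h3.congr ?_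
    intro n
    rw [Real.sqrt_sq (norm_nonneg _), a2_coord]
  have hR0 : Tendsto R atTop (𝓝 0) := by
    have h1 : Tendsto (fun n => Real.sqrt (2 * T n + 2 * s n ^ 2)) atTop (𝓝 0) := by
      have h2 : Tendsto (fun n => 2 * T n + 2 * s n ^ 2) atTop (𝓝 0) := by
        have := (hT0.const_mul 2).add ((hs0.pow 2).const_mul 2)
        simpa using this
      have := (Real.continuous_sqrt.tendsto 0).comp h2
      simpa [Function.comp_def] using this
    have := hT0.add ((h1.add hs0).pow 2)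
    simpa using this
  have hsq : Tendsto (fun n => Real.sqrt (R n)) atTop (𝓝 0) := by
    have := (Real.continuous_sqrt.tendsto 0).comp hR0
    simpa [Function.comp_def] using this
  have hQ := tendsto_iff_norm_sub_tendsto_zero.1 (tendsto_blocks v)
  have hfin : Tendsto (fun N => Real.sqrt (R (L N)) +
      ‖∑ m ∈ Finset.range (b (L N)), a m • X m - v‖) atTop (𝓝 0) := by
    have := (hsq.comp L_tendsto).add (hQ.comp L_tendsto)
    simpa [Function.comp_def] using this
  rw [tendsto_iff_norm_sub_tendsto_zero]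
  refine squeeze_zero (fun N => norm_nonneg _) (fun N => ?_) hfin
  have hk : N - b (L N) ≤ 2 ^ (L N) := by
    have h1 := b_L_le N
    have h2 := lt_b_L N
    rw [b_add] at h2
    omega
  have hN : N = b (L N) + (N - b (L N)) := by
    have h1 := b_L_le N
    omega
  have hsum := sum_rearr g hg (fun m => a m • (X m : Sub 𝕜)) (L N) (N - b (L N)) hk
  rw [← hN] at hsum
  rw [hsum]
  have h5 : ‖∑ j ∈ Finset.range (N - b (L N)), a (g (L N) j) • (X (g (L N) j) : Sub 𝕜)‖ ≤
      Real.sqrt (R (L N)) := by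
    apply Real.le_sqrt_of_sq_le
    set k := N - b (L N) with hkdef
    set n := L N with hn
    have hinj : Set.InjOn (g n) (Finset.range k : Set ℕ) := by
      intro i hi j hj hij
      have hi' := Finset.mem_range.1 (Finset.mem_coe.1 hi)
      have hj' := Finset.mem_range.1 (Finset.mem_coe.1 hj)
      exact (hg n).injOn (by rw [Set.mem_Iio, card_B]; omega)
        (by rw [Set.mem_Iio, card_B]; omega) hij
    have hsub : (Finset.range k).image (g n) ⊆ B n := by
      intro m hm
      rw [Finset.mem_image] at hm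
      obtain ⟨j, hj, rfl⟩ := hm
      have hj' := Finset.mem_range.1 hj
      exact (hg n).mapsTo (by rw [Set.mem_Iio, card_B]; omega)
    have h6 := norm_block n _ hsub a
    rw [Finset.sum_image hinj, Finset.sum_image hinj, Finset.sum_image hinj] at h6
    rw [h6]
    have h7 : ∑ m ∈ (Finset.range k).image (g n), ‖a m‖ ^ 2 ≤ T n :=
      Finset.sum_le_sum_of_subset_of_nonneg hsub (fun _ _ _ => by positivity)
    rw [Finset.sum_image hinj] at h7
    have h8 := hgk n k (by rw [card_B]; exact hk)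
    have h9 : ‖∑ j ∈ Finset.range k, a (g n j)‖ ^ 2 ≤
        (Real.sqrt (2 * T n + 2 * s n ^ 2) + s n) ^ 2 :=
      pow_le_pow_left₀ (norm_nonneg _) h8 2
    rw [hR]
    exact add_le_add h7 h9
  have h10 : ∑ i ∈ Finset.range (b (L N)), a i • (X i : Sub 𝕜) +
      ∑ j ∈ Finset.range (N - b (L N)), a (g (L N) j) • (X (g (L N) j) : Sub 𝕜) - v =
      ∑ j ∈ Finset.range (N - b (L N)), a (g (L N) j) • (X (g (L N) j) : Sub 𝕜) +
      (∑ i ∈ Finset.range (b (L N)), a i • (X i : Sub 𝕜) - v) := by abel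
  rw [h10]
  exact (norm_add_le _ _).trans (add_le_add h5 le_rfl)

/-- The coefficients of a convergent rearranged expansion are the coordinates. -/
lemma coeff_eq (v : Sub 𝕜) (α : ℕ → 𝕜) (h : ExpandsAs 𝕜 (X : ℕ → Sub 𝕜) α v) (m : ℕ) :
    α m = (a1 v : ℕ → 𝕜) m := by
  obtain ⟨σ, hσ⟩ := h
  have h1 := ((co m : Sub 𝕜 →L[𝕜] 𝕜).continuous.tendsto v).comp hσ
  have h2 : Tendsto (fun N => co m (∑ i ∈ Finset.range N, α (σ i) • (X (σ i) : Sub 𝕜))) atTop
      (𝓝 (α m)) := by
    apply tendsto_atTop_of_eventually_const (i₀ := σ.symm m + 1)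
    intro N hN
    rw [map_sum, Finset.sum_eq_single (σ.symm m)]
    · rw [map_smul, co_X, Equiv.apply_symm_apply, if_pos rfl, smul_eq_mul, mul_one]
    · intro i _ hi
      rw [map_smul, co_X, if_neg, smul_zero]
      intro h
      apply hi
      rw [h, Equiv.symm_apply_apply]
    · intro hi
      rw [Finset.mem_range] at hi
      omega
  exact tendsto_nhds_unique h2 h1

lemma propertyU : PropertyU 𝕜 (X : ℕ → Sub 𝕜) := by
  intro v
  refine ⟨fun m => (a1 v : ℕ → 𝕜) m, exists_expansion v, ?_⟩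
  intro α hα
  funext m
  exact coeff_eq v α hα m

lemma minimal : IsMinimalSeq 𝕜 (X : ℕ → Sub 𝕜) := by
  intro m hm
  have hcl : IsClosed {p : Sub 𝕜 | co m p = 0} := isClosed_eq (co m).continuous continuous_const
  have hsub : (Submodule.span 𝕜 ((X : ℕ → Sub 𝕜) '' {n | n ≠ m}) : Set (Sub 𝕜)) ⊆
      {p : Sub 𝕜 | co m p = 0} := by
    have : Submodule.span 𝕜 ((X : ℕ → Sub 𝕜) '' {n | n ≠ m}) ≤
        LinearMap.ker ((co m : Sub 𝕜 →L[𝕜] 𝕜) : Sub 𝕜 →ₗ[𝕜] 𝕜) := by
      rw [Submodule.span_le]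
      rintro _ ⟨n, hn, rfl⟩
      change co m (X n) = 0
      rw [co_X, if_neg (Ne.symm hn)]
    exact this
  have h1 := closure_minimal hsub hcl hm
  have h2 : co m (X m : Sub 𝕜) = 0 := h1
  rw [co_X, if_pos rfl] at h2
  exact one_ne_zero h2

lemma separable : TopologicalSpace.SeparableSpace (Sub 𝕜) := by
  have h1 : TopologicalSpace.IsSeparable (Set.range (X : ℕ → Sub 𝕜)) :=
    (Set.countable_range _).isSeparable
  have h2 := (h1.span (R := 𝕜)).closure
  have h3 : closure (Submodule.span 𝕜 (Set.range (X : ℕ → Sub 𝕜)) : Set (Sub 𝕜)) = Set.univ := by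
    rw [Set.eq_univ_iff_forall]
    intro v
    refine mem_closure_of_tendsto (tendsto_blocks v) (Eventually.of_forall ?_)
    intro n
    apply Submodule.sum_mem
    intro m _
    exact Submodule.smul_mem _ _ (Submodule.subset_span ⟨m, rfl⟩)
  rw [h3] at h2
  exact TopologicalSpace.isSeparable_univ_iff.1 h2

/-! ### No permutation is a basis -/

/-- the partial sum operator of the permuted sequence -/
noncomputable def PS (τ : Equiv.Perm ℕ) (N : ℕ) : Sub 𝕜 →L[𝕜] Sub 𝕜 :=
  ∑ i ∈ Finset.range N, (co (τ i) : Sub 𝕜 →L[𝕜] 𝕜).smulRight (X (τ i))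

lemma PS_apply (τ : Equiv.Perm ℕ) (N : ℕ) (v : Sub 𝕜) :
    PS τ N v = ∑ i ∈ Finset.range N, (co (τ i) v) • (X (τ i) : Sub 𝕜) := by
  unfold PS
  rw [_root_.sum_apply]
  rfl

/-- a discrete intermediate value property -/
lemma exists_prefix (τ : Equiv.Perm ℕ) (n h : ℕ) (hh : h ≤ 2 ^ n) :
    ∃ N, ((Finset.range N).image τ ∩ B n).card = h := by
  set c : ℕ → ℕ := fun N => ((Finset.range N).image τ ∩ B n).card with hc
  have h0 : c 0 = 0 := by simp [hc]
  have hstep : ∀ N, c (N + 1) ≤ c N + 1 := by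
    intro N
    simp only [hc]
    rw [Finset.range_add_one, Finset.image_insert]
    have : insert (τ N) ((Finset.range N).image τ) ∩ B n ⊆
        insert (τ N) ((Finset.range N).image τ ∩ B n) := by
      intro m hm
      simp only [Finset.mem_inter, Finset.mem_insert] at hm ⊢
      tauto
    exact (Finset.card_le_card this).trans (Finset.card_insert_le _ _)
  -- eventually all of the block is covered
  obtain ⟨M, hM⟩ : ∃ M, h ≤ c M := by
    refine ⟨(B n).sup (fun m => τ.symm m + 1), ?_⟩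
    have : B n ⊆ (Finset.range ((B n).sup (fun m => τ.symm m + 1))).image τ ∩ B n := by
      intro m hm
      rw [Finset.mem_inter]
      refine ⟨?_, hm⟩
      rw [Finset.mem_image]
      refine ⟨τ.symm m, ?_, Equiv.apply_symm_apply _ _⟩
      rw [Finset.mem_range]
      have := Finset.le_sup (f := fun m => τ.symm m + 1) hm
      exact this
    have h2 := Finset.card_le_card this
    rw [card_B] at h2
    exact hh.trans h2
  by_contra hcon
  push Not at hcon
  have : ∀ N, c N < h := by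
    intro N
    induction N with
    | zero =>
      have := hcon 0
      change c 0 ≠ h at this
      omega
    | succ N ih =>
      have h1 := hcon (N + 1)
      change c (N + 1) ≠ h at h1
      have h2 := hstep N
      omega
  exact absurd hM (by have := this M; omega)

lemma not_basis (τ : Equiv.Perm ℕ) : ¬ IsSchauderBasis 𝕜 (fun i => (X (τ i) : Sub 𝕜)) := by
  intro hb
  -- the partial sums converge to the vector
  have hconv : ∀ v : Sub 𝕜, Tendsto (fun N => PS τ N v) atTop (𝓝 v) := by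
    intro v
    obtain ⟨α, hα, -⟩ := hb v
    have h1 : ExpandsAs 𝕜 (X : ℕ → Sub 𝕜) (fun m => α (τ.symm m)) v := by
      refine ⟨τ, ?_⟩
      simpa using hα
    have h2 : ∀ i, α i = co (τ i) v := by
      intro i
      have := coeff_eq v _ h1 (τ i)
      simp only [Equiv.symm_apply_apply] at this
      exact this
    refine hα.congr ?_
    intro N
    rw [PS_apply]
    apply Finset.sum_congr rfl
    intro i _
    rw [h2]
  -- uniform boundedness
  obtain ⟨K, hK⟩ : ∃ K, ∀ N, ‖(PS τ N : Sub 𝕜 →L[𝕜] Sub 𝕜)‖ ≤ K := by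
    apply banach_steinhaus
    intro v
    have h1 := (hconv v).norm.bddAbove_range
    obtain ⟨C, hC⟩ := h1
    exact ⟨C, fun N => hC ⟨N, rfl⟩⟩
  -- choose a large block
  obtain ⟨n, hn⟩ := pow_unbounded_of_one_lt (2 * K ^ 2) (by norm_num : (1 : ℝ) < 2)
  obtain ⟨N, hN⟩ := exists_prefix τ (n + 1) (2 ^ n) (Nat.pow_le_pow_right (by norm_num) (by omega))
  set A := (Finset.range N).image τ ∩ B (n + 1) with hA
  have hAB : A ⊆ B (n + 1) := Finset.inter_subset_right
  set c : ℕ → 𝕜 := fun m => if m ∈ A then 1 else -1 with hc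
  set v : Sub 𝕜 := ∑ m ∈ B (n + 1), c m • X m with hv
  have hco : ∀ m, co m v = if m ∈ B (n + 1) then c m else 0 := by
    intro m
    rw [hv, map_sum]
    simp_rw [map_smul, co_X, smul_eq_mul]
    simp only [mul_ite, mul_one, mul_zero]
    rw [Finset.sum_ite_eq]
  have hcard : (B (n + 1) \ A).card = 2 ^ n := by
    rw [Finset.card_sdiff_of_subset hAB, card_B, hN, pow_succ]; omega
  have hsumc : ∑ m ∈ B (n + 1), c m = 0 := by
    rw [← Finset.sum_sdiff hAB]
    have h1 : ∑ m ∈ B (n + 1) \ A, c m = -(2 ^ n : 𝕜) := by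
      rw [Finset.sum_congr rfl (g := fun _ => (-1 : 𝕜))]
      · rw [Finset.sum_const, hcard, nsmul_eq_mul]; push_cast; ring
      · intro m hm
        rw [hc]
        simp only
        rw [if_neg (Finset.mem_sdiff.1 hm).2]
    have h2 : ∑ m ∈ A, c m = (2 ^ n : 𝕜) := by
      rw [Finset.sum_congr rfl (g := fun _ => (1 : 𝕜))]
      · rw [Finset.sum_const, hN, nsmul_eq_mul]; push_cast; ring
      · intro m hm
        rw [hc]
        simp only
        rw [if_pos hm]
    rw [h1, h2]; ring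
  have hcn : ∀ m, ‖c m‖ ^ 2 = 1 := by
    intro m
    rw [hc]
    by_cases h : m ∈ A <;> simp [h]
  have hvn : ‖v‖ ^ 2 = 2 ^ (n + 1) := by
    rw [hv, norm_block (n + 1) _ (Finset.Subset.refl _), hsumc]
    simp only [hcn, norm_zero]
    rw [Finset.sum_const, card_B]
    simp
  -- the partial sum
  have hP : PS τ N v = ∑ m ∈ A, c m • X m := by
    rw [PS_apply, ← Finset.sum_image (f := fun m => (co m v) • (X m : Sub 𝕜)) (g := τ)
      (s := Finset.range N) (fun i _ j _ h => τ.injective h)]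
    rw [← Finset.sum_subset (Finset.inter_subset_left : A ⊆ (Finset.range N).image τ)]
    · apply Finset.sum_congr rfl
      intro m hm
      rw [hco, if_pos (hAB hm)]
    · intro m hm hm'
      rw [hco, if_neg, zero_smul]
      intro h
      exact hm' (Finset.mem_inter.2 ⟨hm, h⟩)
  have hPn : ((2:ℝ) ^ n) ^ 2 ≤ ‖PS τ N v‖ ^ 2 := by
    rw [hP, norm_block (n + 1) _ hAB]
    have h2 : ∑ m ∈ A, c m = (2 ^ n : 𝕜) := by
      rw [Finset.sum_congr rfl (g := fun _ => (1 : 𝕜))]
      · rw [Finset.sum_const, hN, nsmul_eq_mul]; push_cast; ring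
      · intro m hm
        rw [hc]
        simp only
        rw [if_pos hm]
    have h3 : ‖(2 ^ n : 𝕜)‖ = (2:ℝ) ^ n := by
      rw [norm_pow, RCLike.norm_ofNat]
    rw [h2, h3]
    have : 0 ≤ ∑ m ∈ A, ‖c m‖ ^ 2 := Finset.sum_nonneg (fun _ _ => by positivity)
    linarith
  have hle : ‖PS τ N v‖ ^ 2 ≤ K ^ 2 * ‖v‖ ^ 2 := by
    have h1 := ((PS τ N : Sub 𝕜 →L[𝕜] Sub 𝕜).le_opNorm v).trans
      (mul_le_mul_of_nonneg_right (hK N) (norm_nonneg v))
    have h2 := pow_le_pow_left₀ (norm_nonneg _) h1 2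
    rwa [mul_pow] at h2
  have h2n : (0:ℝ) < 2 ^ n := by positivity
  have h2n1 : (2:ℝ) ^ (n + 1) = 2 * 2 ^ n := by ring
  rw [hvn, h2n1] at hle
  have h5 : (2:ℝ) ^ n * 2 ^ n ≤ (2 * K ^ 2) * 2 ^ n := by nlinarith
  have h6 : (2:ℝ) ^ n ≤ 2 * K ^ 2 := le_of_mul_le_mul_right h5 h2n
  linarith

end Space

/-- **Both questions have a negative answer**, over the real and over the complex scalars, already in
the separable Hilbert space: there is a minimal sequence with property (U) none of whose permutations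
is a Schauder basis. -/
theorem result (𝕜 : Type u) [RCLike 𝕜] :
    ∃ (E : Type u) (_ : NormedAddCommGroup E) (_ : InnerProductSpace 𝕜 E) (_ : CompleteSpace E)
      (_ : TopologicalSpace.SeparableSpace E) (x : ℕ → E),
      IsMinimalSeq 𝕜 x ∧ PropertyU 𝕜 x ∧
        ∀ τ : Equiv.Perm ℕ, ¬ IsSchauderBasis 𝕜 (fun i => x (τ i)) :=
  ⟨Sub 𝕜, inferInstance, inferInstance, inferInstance, separable, X, minimal, propertyU,
    not_basis⟩

end Pool.Agent.Results.MP_514f39_an.NoPermutationBasis
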